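import Pool.Agent.Mg.Fd3fa2a.Gb8151a

/-! The value of `M_{3,q}` for every `q > 0`, attained by `z + (2√2/3) z² + z³/3`. -/

namespace Pool.Agent.Results.MP_d3fa2a_an.Cubic

open Pool.Agent.MP_d3fa2a_an

theorem result (q : ℝ) (hq : 0 < q) :
    IsGreatest
      {x : ℝ | ∃ a₂ a₃ : ℂ,
        Set.InjOn (fun z : ℂ => z + a₂ * z ^ 2 + a₃ * z ^ 3) (Metric.ball 0 1) ∧
        x = ∫ t in (0 : ℝ)..2 * Real.pi,
          ‖(fun z : ℂ => z + a₂ * z ^ 2 + a₃ * z ^ 3) (Complex.exp (t * Complex.I))‖ ^ q}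
      (∫ t in (0 : ℝ)..2 * Real.pi,
        (2 + 16 * √2 / 9 * Real.cos t + 2 / 3 * Real.cos (2 * t)) ^ (q / 2)) ∧
    Set.InjOn (fun z : ℂ => z + ((2 * √2 / 3 : ℝ) : ℂ) * z ^ 2 + (1 / 3 : ℂ) * z ^ 3)
      (Metric.ball 0 1) ∧
    (∫ t in (0 : ℝ)..2 * Real.pi,
        ‖(fun z : ℂ => z + ((2 * √2 / 3 : ℝ) : ℂ) * z ^ 2 + (1 / 3 : ℂ) * z ^ 3)
          (Complex.exp (t * Complex.I))‖ ^ q) =
      ∫ t in (0 : ℝ)..2 * Real.pi,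
        (2 + 16 * √2 / 9 * Real.cos t + 2 / 3 * Real.cos (2 * t)) ^ (q / 2) := by
  have hS : (∫ t in (0 : ℝ)..2 * Real.pi,
        ‖(fun z : ℂ => z + (A : ℂ) * z ^ 2 + (1 / 3 : ℂ) * z ^ 3)
          (Complex.exp (t * Complex.I))‖ ^ q) =
      ∫ t in (0 : ℝ)..2 * Real.pi,
        (2 + 16 * √2 / 9 * Real.cos t + 2 / 3 * Real.cos (2 * t)) ^ (q / 2) := by
    rw [← S_value, ← S_avg,
      ← integral_eq_avg (fun z => ‖z + (A : ℂ) * z ^ 2 + (1 / 3 : ℂ) * z ^ 3‖ ^ q)]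
  refine ⟨⟨⟨A, 1 / 3, S_injOn, hS.symm⟩, ?_⟩, S_injOn, hS⟩
  rintro x ⟨a, b, h, rfl⟩
  rw [← S_value]
  have := integral_eq_avg (fun z => ‖z + a * z ^ 2 + b * z ^ 3‖ ^ q)
  refine this.le.trans ?_
  exact mul_le_mul_of_nonneg_left (cubic_le h hq) (by positivity)

end Pool.Agent.Results.MP_d3fa2a_an.Cubic
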