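import Pool.Agent.MP_d3fa2a_an.F.Main

/-! Complex coefficients, every degree, large exponent: up to rotation the extremal polynomials
belong to an explicit finite set that does not depend on the exponent. -/

namespace Pool.Agent.Results.MP_d3fa2a_an.FiniteLarge

open Pool.Agent.MP_d3fa2a_an

theorem result (n : ℕ) (hn : 2 ≤ n)
    (p : (ℕ → ℂ) → ℂ → ℂ) (hp : ∀ a z, p a z = z + ∑ k ∈ Finset.Icc 2 n, a k * z ^ k)
    (I : ℝ → (ℕ → ℂ) → ℝ) (hI : ∀ q a, I q a =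
      ∫ t in (0 : ℝ)..2 * Real.pi, ‖p a (Complex.exp (t * Complex.I))‖ ^ q)
    (E : Set (ℕ → ℂ)) (hE : ∀ a, a ∈ E ↔ (∀ k, k ∉ Finset.Icc 2 n → a k = 0) ∧ a n = 1 / n ∧
      Set.InjOn (p a) (Metric.ball 0 1) ∧ ∃ z w : Fin (n - 2) → ℂ,
        (∀ i, ‖z i‖ = 1 ∧ ‖w i‖ = 1 ∧ p a (z i) = p a (w i)) ∧
        (Matrix.of fun i j : Fin (n - 2) => z i ^ ((j : ℕ) + 2) - w i ^ ((j : ℕ) + 2)).det ≠ 0) :
    E.Finite ∧ ∀ q : ℝ, 10 ^ 7 * (n : ℝ) ^ 9 * Real.log n ≤ q →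
      (∃ Z ∈ E, ∀ a, Set.InjOn (p a) (Metric.ball 0 1) → I q a ≤ I q Z) ∧
      ∀ a, Set.InjOn (p a) (Metric.ball 0 1) →
        (∀ b, Set.InjOn (p b) (Metric.ball 0 1) → I q b ≤ I q a) →
        ∃ Z ∈ E, ∃ α : ℝ, ∀ z, p a z =
          Complex.exp (-(α * Complex.I)) * p Z (Complex.exp (α * Complex.I) * z) := by
  have n1 : 1 ≤ n := by omega
  have m2 : ∀ k, k ∈ Finset.Icc 2 n ↔ k ∈ Finset.Icc 1 n ∧ k ≠ 1 := fun k => by
    simp only [Finset.mem_Icc]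
    omega
  have e1 : ∀ a b : ℕ → ℂ, b 1 = 1 → (∀ k ∈ Finset.Icc 2 n, b k = a k) → p a = F.P n b :=
    fun a b h1 h => funext fun z => (hp a z).trans (F.P_eq n1 h1 h z)
  have e2 : ∀ a, p a = F.P n (Function.update a 1 1) := fun a =>
    e1 a _ (Function.update_self ..) fun k hk => Function.update_of_ne ((m2 k).1 hk).2 ..
  have e3 : ∀ b, F.U n b → p b = F.P n b := fun b h => e1 b b h.1 fun _ _ => rfl
  have u2 : ∀ a, Set.InjOn (p a) (Metric.ball 0 1) → F.U n (Function.update a 1 1) := fun a h =>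
    ⟨Function.update_self .., e2 a ▸ h⟩
  have key : ∀ q : ℝ, 10 ^ 7 * (n : ℝ) ^ 9 * Real.log n ≤ q → ∀ a, F.U n a →
      (∀ b, F.U n b → F.J n b q ≤ F.J n a q) → ∃ Z ∈ E, ∃ α : ℝ, p Z = F.P n (F.rot α a) := by
    intro q hq a hU hm
    obtain ⟨α, h1, h2⟩ := F.main hn hq hU hm
    have hU' := (F.rot_st n a).2.1 α hU
    have h3 := e1 (fun k => if k ∈ Finset.Icc 2 n then F.rot α a k else 0) _ hU'.1
      fun k hk => (if_pos hk).symm
    exact ⟨_, (hE _).2 ⟨fun k hk => if_neg hk, (if_pos (Finset.mem_Icc.2 ⟨hn, le_rfl⟩)).trans h1,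
      h3 ▸ hU'.2, h3 ▸ h2⟩, α, h3⟩
  refine ⟨?_, fun q hq => ⟨?_, fun a ha hm => ?_⟩⟩
  · refine Set.Finite.of_finite_image (f := fun a => Function.update a 1 1)
      ((F.cand_st F.fin_st F.bd_st n hn).subset ?_) fun a ha b hb h => ?_
    · rintro _ ⟨a, ha, rfl⟩
      obtain ⟨h1, h2, h3, h4⟩ := (hE a).1 ha
      refine ⟨fun k hk => ?_, u2 a h3, F.face_of hn (u2 a h3) ?_, e2 a ▸ h4⟩
      · have : k ≠ 1 := fun h => hk (Finset.mem_Icc.2 (by omega))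
        exact (Function.update_of_ne this ..).trans (h1 k fun h => hk ((m2 k).1 h).1)
      · exact (Function.update_of_ne (by omega) ..).trans h2
    · funext k
      rcases eq_or_ne k 1 with rfl | hk
      · rw [((hE a).1 ha).1 1 (by simp), ((hE b).1 hb).1 1 (by simp)]
      · simpa [hk] using congrFun h k
  · have q0 : 0 < q := lt_of_lt_of_le (by
      have := Real.log_pos (show (1 : ℝ) < n by exact_mod_cast hn)
      positivity) hq
    obtain ⟨a, hU, hm⟩ := F.max_st n q n1 q0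
    obtain ⟨Z, hZ, α, h⟩ := key q hq a hU hm
    refine ⟨Z, hZ, fun b hb => ?_⟩
    rw [hI, hI, h, e2 b]
    exact (hm _ (u2 b hb)).trans_eq ((F.rot_st n a).1 α q).symm
  · obtain ⟨Z, hZ, α, h⟩ := key q hq _ (u2 a ha) fun b hb => by
      have := hm b (e3 b hb ▸ hb.2)
      rwa [hI, hI, e3 b hb, e2 a] at this
    refine ⟨Z, hZ, -α, fun z => ?_⟩
    rw [h, F.rot_P, ← e2, ← mul_assoc, ← mul_assoc, ← Complex.exp_add, ← Complex.exp_add]
    simp

end Pool.Agent.Results.MP_d3fa2a_an.FiniteLarge
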