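import Pool.Agent.Mg.Fd3fa2aap.G967622

/-! The value of `M_{4,q}` for every `q > 0`, attained by a quartic with non-real coefficients. -/

namespace Pool.Agent.Results.MP_d3fa2a_an.Quartic

open Pool.Agent.MP_d3fa2a_an Pool.Agent.MP_d3fa2a_an.Q4

theorem result (q : ℝ) (hq : 0 < q) (r : ℝ) (hr : r = 3 / 4 * √(3 * √15 - 9)) (w : ℂ)
    (hw : w = ((3 * √(9 + 5 * √15) : ℝ) + (√(175 - 45 * √15) : ℝ) * Complex.I) / 16) :
    IsGreatest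
      {x : ℝ | ∃ a₂ a₃ a₄ : ℂ,
        Set.InjOn (fun z : ℂ => z + a₂ * z ^ 2 + a₃ * z ^ 3 + a₄ * z ^ 4) (Metric.ball 0 1) ∧
        x = ∫ t in (0 : ℝ)..2 * Real.pi,
          ‖(fun z : ℂ => z + a₂ * z ^ 2 + a₃ * z ^ 3 + a₄ * z ^ 4)
            (Complex.exp (t * Complex.I))‖ ^ q}
      (∫ t in (0 : ℝ)..2 * Real.pi,
        ‖(fun z : ℂ => z + (r : ℂ) * z ^ 2 + 2 / 3 * r * w * z ^ 3 + w / 4 * z ^ 4)
          (Complex.exp (t * Complex.I))‖ ^ q) ∧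
    Set.InjOn (fun z : ℂ => z + (r : ℂ) * z ^ 2 + 2 / 3 * r * w * z ^ 3 + w / 4 * z ^ 4)
      (Metric.ball 0 1) := by
  obtain ⟨p₀, h0, h1, h2⟩ := extremal
  have hw' : (⟨3 * √(9 + 5 * √15) / 16, √(175 - 45 * √15) / 16⟩ : ℂ) = w := by
    rw [hw]; apply Complex.ext <;> simp
  rw [← hr, hw'] at h0
  subst h0
  refine ⟨⟨⟨_, _, _, h1, rfl⟩, ?_⟩, h1⟩
  rintro x ⟨a, b, c, h, rfl⟩
  rw [integral_II, integral_II]
  exact mul_le_mul_of_nonneg_left (h2 (a, b, c) h q hq) (by positivity)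

end Pool.Agent.Results.MP_d3fa2a_an.Quartic
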