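import Pool.Agent.MP_d3fa2a_an.R.Main

/-! Real coefficients, every degree, large exponent: the extremal polynomial is the one of
Suffridge, and it is unique up to `p(z) ↦ -p(-z)`. -/

namespace Pool.Agent.Results.MP_d3fa2a_an.RealLarge

open Pool.Agent.MP_d3fa2a_an

theorem result (n : ℕ) (hn : 2 ≤ n) (q : ℝ) (hq : 10 ^ 12 * (n : ℝ) ^ 2 * Real.log n ≤ q)
    (A : ℕ → ℝ) (hA : ∀ k : ℕ, A k = ((n : ℝ) + 1 - k) / n *
      (Real.sin (k * Real.pi / (n + 1)) / Real.sin (Real.pi / (n + 1)))) :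
    Set.InjOn (fun z : ℂ => z + ∑ k ∈ Finset.Icc 2 n, (A k : ℂ) * z ^ k) (Metric.ball 0 1) ∧
    ∀ a : ℕ → ℝ,
      Set.InjOn (fun z : ℂ => z + ∑ k ∈ Finset.Icc 2 n, (a k : ℂ) * z ^ k) (Metric.ball 0 1) →
      (∫ t in (0 : ℝ)..2 * Real.pi, ‖(fun z : ℂ => z + ∑ k ∈ Finset.Icc 2 n, (a k : ℂ) * z ^ k)
          (Complex.exp (t * Complex.I))‖ ^ q) ≤
        (∫ t in (0 : ℝ)..2 * Real.pi, ‖(fun z : ℂ => z + ∑ k ∈ Finset.Icc 2 n, (A k : ℂ) * z ^ k)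
          (Complex.exp (t * Complex.I))‖ ^ q) ∧
      ((∫ t in (0 : ℝ)..2 * Real.pi, ‖(fun z : ℂ => z + ∑ k ∈ Finset.Icc 2 n, (a k : ℂ) * z ^ k)
          (Complex.exp (t * Complex.I))‖ ^ q) =
        (∫ t in (0 : ℝ)..2 * Real.pi, ‖(fun z : ℂ => z + ∑ k ∈ Finset.Icc 2 n, (A k : ℂ) * z ^ k)
          (Complex.exp (t * Complex.I))‖ ^ q) ↔
        (∀ k ∈ Finset.Icc 2 n, a k = A k) ∨ ∀ k ∈ Finset.Icc 2 n, a k = (-1) ^ (k + 1) * A k) := by
  have n1 : 1 ≤ n := by omega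
  have e : ∀ k, R.A n k = A k := fun k => by
    simp [hA, R.A, R.sg, R.sn, mul_div_assoc]
  have s : ∀ k ∈ Finset.Icc 2 n, k ∈ Finset.Icc 1 n ∧ k ≠ 1 := fun k hk => by
    simp only [Finset.mem_Icc] at hk ⊢
    omega
  rw [R.P_eq n1 (R.A_one n1) fun k _ => e k]
  refine ⟨R.S_inj n1, fun a hi => ?_⟩
  have key : ((∀ k ∈ Finset.Icc 2 n, a k = A k) ∨
      ∀ k ∈ Finset.Icc 2 n, a k = (-1) ^ (k + 1) * A k) →
      (∫ t in (0 : ℝ)..2 * Real.pi, ‖(fun z : ℂ => z + ∑ k ∈ Finset.Icc 2 n, (a k : ℂ) * z ^ k)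
          (Complex.exp (t * Complex.I))‖ ^ q) =
        ∫ t in (0 : ℝ)..2 * Real.pi, ‖R.P n (R.A n) (Complex.exp (t * Complex.I))‖ ^ q := by
    rintro (h | h)
    · rw [R.P_eq n1 (R.A_one n1) fun k hk => (e k).trans (h k hk).symm]
    · rw [R.P_eq (b := fun k => (-1) ^ (k + 1) * R.A n k) n1 (by simp [R.A_one n1])
        fun k hk => by rw [h k hk, e], R.per, ← R.per_flip]
  have hp := R.P_eq (a := a) (b := fun k => if k = 1 then 1 else a k) n1 (if_pos rfl)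
    fun k hk => if_neg (s k hk).2
  have hf := R.full hn (if_pos rfl) (hp ▸ hi) hq
  rw [← hp, ← or_assoc] at hf
  rcases hf with h | h
  · have h' := h.imp (fun h k hk => (if_neg (s k hk).2).symm.trans ((h k (s k hk).1).trans (e k)))
      fun h k hk => (if_neg (s k hk).2).symm.trans ((h k (s k hk).1).trans (by rw [e]))
    exact ⟨(key h').le, fun _ => h', key⟩
  · exact ⟨h.le, fun h' => absurd h' h.ne, key⟩

end Pool.Agent.Results.MP_d3fa2a_an.RealLarge
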